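import Pool.Agent.H905R3.DML.Core
import Pool.Agent.H927R2.RD.Final2
import Pool.Agent.H684R3.Smo.Task1
import Pool.Agent.H684R3.Smo.Task2
import Pool.Agent.H684R3.Smo.Task3
import Pool.Agent.H684R3.Smo.Task4
import Pool.Agent.H684R3.Smo.Task5
import Pool.Agent.H684R3.Smo.Task8
import Pool.Agent.TH838.DS.Sys

/-!
# Dynamical Mordell–Lang for almost all endomorphisms of powers of the projective line
-/

set_option autoImplicit false

namespace Pool.Agent.Results.MP_295d38_ag.EndomorphismsOfLinePowers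

open MvPolynomial

/-- Indices of the coefficients of `N` pairs of binary forms, those of the `i`-th pair being of
degree `d i`. -/
abbrev Idx (N : ℕ) (d : Fin N → ℕ) : Type := Σ i : Fin N, Fin 2 × Fin (d i + 1)

/-- The self-map `(P_i) ↦ (f_i (P_(σ i)))` of `(ℙ^1)^N` in homogeneous coordinates, `f_i` being the
rational function `(x : y) ↦ (∑ v_{i,0,e} x^e y^(d i - e) : ∑ v_{i,1,e} x^e y^(d i - e))`. -/
noncomputable def smap {N : ℕ} {d : Fin N → ℕ} (σ : Fin N → Fin N) (v : Idx N d → ℤ)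
    (x : Fin N × Fin 2 → ℂ) : Fin N × Fin 2 → ℂ :=
  fun q => ∑ e : Fin (d q.1 + 1),
    (v ⟨q.1, (q.2, e)⟩ : ℂ) * (x (σ q.1, 0) ^ (e : ℕ) * x (σ q.1, 1) ^ (d q.1 - (e : ℕ)))

/-- A multihomogeneous polynomial. -/
def MultiHom {N : ℕ} (g : MvPolynomial (Fin N × Fin 2) ℂ) : Prop :=
  ∃ e : Fin N → ℕ, ∀ (t : Fin N → ℂ) (x : Fin N × Fin 2 → ℂ),
    eval (fun q => t q.1 * x q) g = (∏ i, t i ^ e i) * eval x g

/-- The Dynamical Mordell-Lang property of the orbit of the point of `(ℙ^1)^N` with homogeneous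
coordinates `α`: for every closed `V ⊆ (ℙ^1)^N` (the common zeros of a set `S` of multihomogeneous
polynomials) the return set is a finite union of arithmetic progressions. -/
def DMLAt {N : ℕ} {d : Fin N → ℕ} (σ : Fin N → Fin N) (v : Idx N d → ℤ)
    (α : Fin N × Fin 2 → ℂ) : Prop :=
  ∀ S : Set (MvPolynomial (Fin N × Fin 2) ℂ), (∀ g ∈ S, MultiHom g) →
    ∃ T : Finset (ℕ × ℕ), {k : ℕ | ∀ g ∈ S, eval ((smap σ v)^[k] α) g = 0} =
      {k : ℕ | ∃ q ∈ T, ∃ m : ℕ, k = q.1 * m + q.2}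

/-- The Dynamical Mordell-Lang property at all points of `(ℙ^1)^N` over the field `L`. -/
def DMLOver {N : ℕ} {d : Fin N → ℕ} (L : Subfield ℂ) (σ : Fin N → Fin N) (v : Idx N d → ℤ) :
    Prop :=
  ∀ α : Fin N × Fin 2 → ℂ, (∀ q, α q ∈ L) → (∀ i, ¬ (α (i, 0) = 0 ∧ α (i, 1) = 0)) →
    DMLAt σ v α

open Pool.Agent.TH838.DS Pool.Agent.H905R3.DML in
theorem cmap_ps {N : ℕ} {d : Fin N → ℕ} (σ : Fin N → Fin N) (v : Idx N d → ℤ) :
    cmap (ps σ v) = smap σ v := by
  funext x q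
  change eval x (map (Int.castRingHom ℂ) (ps σ v q)) = _
  rw [map_ps]
  simp only [ps, bs, eval_rename, eval_bf, smap]
  rfl

/-- The exponents of the scaling factors of the iterates. -/
def DD {N : ℕ} (d : Fin N → ℕ) (σ : Fin N → Fin N) : ℕ → Fin N → ℕ
  | 0 => fun _ => 1
  | k + 1 => fun i => DD d σ k (σ i) * d i

theorem smap_scale {N : ℕ} {d : Fin N → ℕ} (σ : Fin N → Fin N) (v : Idx N d → ℤ) (t : Fin N → ℂ)
    (x : Fin N × Fin 2 → ℂ) :
    smap σ v (fun q => t q.1 * x q) = fun q => t (σ q.1) ^ d q.1 * smap σ v x q := by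
  funext q
  simp only [smap]
  rw [Finset.mul_sum]
  refine Finset.sum_congr rfl fun e _ => ?_
  have he : (e : ℕ) ≤ d q.1 := by omega
  have h : t (σ q.1) ^ d q.1 = t (σ q.1) ^ (e : ℕ) * t (σ q.1) ^ (d q.1 - (e : ℕ)) := by
    rw [← pow_add]
    congr 1
    omega
  rw [h, mul_pow, mul_pow]
  ring

theorem iter_scale {N : ℕ} {d : Fin N → ℕ} (σ : Fin N → Fin N) (v : Idx N d → ℤ) (t : Fin N → ℂ)
    (x : Fin N × Fin 2 → ℂ) (k : ℕ) :
    (smap σ v)^[k] (fun q => t q.1 * x q) =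
      fun q => t (σ^[k] q.1) ^ (DD d σ k q.1) * (smap σ v)^[k] x q := by
  induction k with
  | zero => simp [DD]
  | succ k ih =>
    rw [Function.iterate_succ_apply', ih, smap_scale σ v (fun i => t (σ^[k] i) ^ (DD d σ k i)),
      Function.iterate_succ_apply']
    funext q
    rw [← pow_mul]
    rfl

theorem dml_scale {N : ℕ} {d : Fin N → ℕ} (σ : Fin N → Fin N) (v : Idx N d → ℤ) (t : Fin N → ℂ)
    (ht : ∀ i, t i ≠ 0)
    (α : Fin N × Fin 2 → ℂ) (h : DMLAt σ v (fun q => t q.1 * α q)) : DMLAt σ v α := by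
  intro S hS
  obtain ⟨T, hT⟩ := h S hS
  refine ⟨T, ?_⟩
  rw [← hT]
  ext k
  simp only [Set.mem_ofPred_eq]
  apply forall₂_congr
  intro g hg
  obtain ⟨e, he⟩ := hS g hg
  rw [iter_scale, he (fun i => t (σ^[k] i) ^ (DD d σ k i))]
  have h1 : (∏ i, (t (σ^[k] i) ^ (DD d σ k i)) ^ e i) ≠ 0 :=
    Finset.prod_ne_zero_iff.2 fun i _ => pow_ne_zero _ (pow_ne_zero _ (ht _))
  constructor
  · intro h2
    rw [h2, mul_zero]
  · intro h2
    exact (mul_eq_zero.1 h2).resolve_left h1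

/-! ### Reduction to permutations -/

/-- The polynomials of the iterates. -/
noncomputable def itp {N : ℕ} {d : Fin N → ℕ} (σ : Fin N → Fin N) (v : Idx N d → ℤ) :
    ℕ → Fin N × Fin 2 → MvPolynomial (Fin N × Fin 2) ℂ
  | 0 => fun q => X q
  | k + 1 => fun q => ∑ e : Fin (d q.1 + 1), C (v ⟨q.1, (q.2, e)⟩ : ℂ) *
      (itp σ v k (σ q.1, 0) ^ (e : ℕ) * itp σ v k (σ q.1, 1) ^ (d q.1 - (e : ℕ)))

theorem eval_itp {N : ℕ} {d : Fin N → ℕ} (σ : Fin N → Fin N) (v : Idx N d → ℤ)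
    (x : Fin N × Fin 2 → ℂ) (k : ℕ) (q : Fin N × Fin 2) :
    eval x (itp σ v k q) = (smap σ v)^[k] x q := by
  induction k generalizing q with
  | zero => simp [itp]
  | succ k ih =>
    rw [Function.iterate_succ_apply']
    simp only [itp, map_sum, map_mul, eval_C, map_pow, ih, smap]

theorem eval_aeval {ι : Type} (P : ι → MvPolynomial ι ℂ) (g : MvPolynomial ι ℂ) (x : ι → ℂ) :
    eval x (aeval P g) = eval (fun q => eval x (P q)) g := by
  induction g using MvPolynomial.induction_on with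
  | C a => simp
  | add p q hp hq => rw [map_add, map_add, hp, hq, map_add]
  | mul_X p i hp => rw [map_mul, map_mul, hp, map_mul, aeval_X, eval_X]

theorem multiHom_comp {N : ℕ} {d : Fin N → ℕ} (σ : Fin N → Fin N) (v : Idx N d → ℤ) (m : ℕ)
    {g : MvPolynomial (Fin N × Fin 2) ℂ} (hg : MultiHom g) :
    MultiHom (aeval (itp σ v m) g) := by
  classical
  obtain ⟨e, he⟩ := hg
  refine ⟨fun j => ∑ i, if σ^[m] i = j then DD d σ m i * e i else 0, fun t x => ?_⟩
  rw [eval_aeval, eval_aeval]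
  have h1 : (fun q => eval (fun q => t q.1 * x q) (itp σ v m q)) =
      fun q => t (σ^[m] q.1) ^ (DD d σ m q.1) * (smap σ v)^[m] x q := by
    rw [← iter_scale]
    funext q
    rw [eval_itp]
  have h2 : (fun q => eval x (itp σ v m q)) = (smap σ v)^[m] x := by
    funext q
    rw [eval_itp]
  rw [h1, h2, he (fun i => t (σ^[m] i) ^ (DD d σ m i))]
  congr 1
  have h3 : ∀ j, t j ^ (∑ i, if σ^[m] i = j then DD d σ m i * e i else 0) =
      ∏ i, t j ^ (if σ^[m] i = j then DD d σ m i * e i else 0) := fun j =>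
    (Finset.prod_pow_eq_pow_sum _ _ _).symm
  simp only [h3]
  rw [Finset.prod_comm]
  refine Finset.prod_congr rfl fun i _ => ?_
  rw [Finset.prod_eq_single (σ^[m] i)]
  · rw [if_pos rfl, pow_mul]
  · intro j _ hj
    rw [if_neg (Ne.symm hj), pow_zero]
  · simp

theorem iter_agree {N : ℕ} {d : Fin N → ℕ} (σ : Fin N → Fin N) (v : Idx N d → ℤ)
    (x y : Fin N × Fin 2 → ℂ) (m : ℕ) (i : Fin N)
    (h : ∀ j, x (σ^[m] i, j) = y (σ^[m] i, j)) (j : Fin 2) :
    (smap σ v)^[m] x (i, j) = (smap σ v)^[m] y (i, j) := by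
  induction m generalizing i j with
  | zero => exact h j
  | succ m ih =>
    rw [Function.iterate_succ_apply', Function.iterate_succ_apply']
    have h1 := ih (σ i) h
    simp only [smap]
    rw [h1 0, h1 1]

theorem exists_idem {X : Type} [Finite X] (f : X → X) :
    ∃ m : ℕ, 1 ≤ m ∧ ∀ x, f^[m] (f^[m] x) = f^[m] x := by
  haveI : Finite (X → X) := inferInstance
  obtain ⟨a, b, hab, h⟩ := Finite.exists_ne_map_eq_of_infinite (fun k : ℕ => f^[k])
  wlog hlt : a < b generalizing a b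
  · exact this b a hab.symm h.symm (by omega)
  have h1 : ∀ n, a ≤ n → f^[n + (b - a)] = f^[n] := by
    intro n hn
    obtain ⟨c, rfl⟩ := Nat.exists_eq_add_of_le hn
    have e1 : a + c + (b - a) = c + b := by omega
    rw [e1, Nat.add_comm a c, Function.iterate_add, Function.iterate_add, h]
  have h2 : ∀ k n, a ≤ n → f^[n + k * (b - a)] = f^[n] := by
    intro k
    induction k with
    | zero => intro n _; simp
    | succ k ih =>
      intro n hn
      have e1 : n + (k + 1) * (b - a) = (n + k * (b - a)) + (b - a) := by ring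
      rw [e1, h1 _ (by omega), ih n hn]
  refine ⟨(a + 1) * (b - a), Nat.mul_pos (by omega) (by omega), fun x => ?_⟩
  rw [← Function.iterate_add_apply, h2 (a + 1) _ (by nlinarith [Nat.sub_pos_of_lt hlt])]

/-- From permutations to arbitrary index maps. -/
theorem dml_of_perm {N : ℕ} {d : Fin N → ℕ} (L : Subfield ℂ) (v : Idx N d → ℤ)
    (h : ∀ π : Fin N → Fin N, Function.Surjective π → DMLOver L π v) (σ : Fin N → Fin N) :
    DMLOver L σ v := by
  classical
  obtain ⟨m, hm, hidem⟩ := exists_idem σ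
  let π : Fin N → Fin N := fun i => if σ^[m] i = i then σ i else i
  have hσJ : ∀ i, σ^[m] i = i → σ^[m] (σ i) = σ i := by
    intro i hi
    rw [← Function.iterate_succ_apply, Function.iterate_succ_apply', hi]
  have hinj : Function.Injective π := by
    intro i j hij
    by_cases hi : σ^[m] i = i <;> by_cases hj : σ^[m] j = j
    · simp only [π, if_pos hi, if_pos hj] at hij
      obtain ⟨c, rfl⟩ : ∃ c, m = c + 1 := ⟨m - 1, by omega⟩
      rw [Function.iterate_succ_apply] at hi hj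
      rw [← hi, ← hj, hij]
    · simp only [π, if_pos hi, if_neg hj] at hij
      exact absurd (hij ▸ hσJ i hi) hj
    · simp only [π, if_neg hi, if_pos hj] at hij
      exact absurd (hij ▸ hσJ j hj) hi
    · simpa only [π, if_neg hi, if_neg hj] using hij
  have hsurj : Function.Surjective π := Finite.surjective_of_injective hinj
  intro α hα hα0 S hS
  have hG : ∀ k i, σ^[m] i = i → ∀ j, (smap π v)^[k] α (i, j) = (smap σ v)^[k] α (i, j) := by
    intro k
    induction k with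
    | zero => intro i _ j; rfl
    | succ k ih =>
      intro i hi j
      rw [Function.iterate_succ_apply', Function.iterate_succ_apply']
      have h1 := ih (σ i) (hσJ i hi)
      simp only [smap, π, if_pos hi] at h1 ⊢
      rw [h1 0, h1 1]
  have hF : ∀ k, (smap σ v)^[k + m] α = (smap σ v)^[m] ((smap π v)^[k] α) := by
    intro k
    rw [Nat.add_comm, Function.iterate_add_apply]
    funext q
    obtain ⟨i, j⟩ := q
    apply iter_agree
    intro j
    rw [hG k (σ^[m] i) (hidem i) j]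
  obtain ⟨T, hT⟩ := h π hsurj α hα hα0 ((fun g => aeval (itp σ v m) g) '' S) (by
    rintro _ ⟨g, hg, rfl⟩
    exact multiHom_comp σ v m (hS g hg))
  have hT' : ∀ k, (∀ g ∈ S, eval ((smap σ v)^[k + m] α) g = 0) ↔
      ∃ q ∈ T, ∃ n : ℕ, k = q.1 * n + q.2 := by
    intro k
    have h1 : (∃ q ∈ T, ∃ n : ℕ, k = q.1 * n + q.2) ↔
        k ∈ {k : ℕ | ∀ g ∈ (fun g => aeval (itp σ v m) g) '' S,
          eval ((smap π v)^[k] α) g = 0} := by
      rw [hT]
      rfl
    rw [h1]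
    simp only [Set.mem_ofPred_eq, Set.forall_mem_image]
    apply forall₂_congr
    intro g _
    rw [eval_aeval, hF k]
    have h2 : (fun q => eval ((smap π v)^[k] α) (itp σ v m q)) =
        (smap σ v)^[m] ((smap π v)^[k] α) := by
      funext q
      rw [eval_itp]
    rw [h2]
  refine ⟨T.image (fun q => (q.1, q.2 + m)) ∪
    ((Finset.range m).filter fun n => ∀ g ∈ S, eval ((smap σ v)^[n] α) g = 0).image
      (fun n => (0, n)), ?_⟩
  ext n
  simp only [Set.mem_ofPred_eq, Finset.mem_union, Finset.mem_image, Finset.mem_filter,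
    Finset.mem_range]
  constructor
  · intro hn
    rcases Nat.lt_or_ge n m with hnm | hnm
    · exact ⟨(0, n), Or.inr ⟨n, ⟨hnm, hn⟩, rfl⟩, 0, by simp⟩
    · obtain ⟨k, rfl⟩ : ∃ k, n = k + m := ⟨n - m, by omega⟩
      obtain ⟨q, hq, c, hc⟩ := (hT' k).1 hn
      refine ⟨(q.1, q.2 + m), Or.inl ⟨q, hq, rfl⟩, c, ?_⟩
      simp only
      omega
  · rintro ⟨q, hq | hq, c, hc⟩
    · obtain ⟨q', hq', rfl⟩ := hq
      simp only at hc
      have h1 : n = (q'.1 * c + q'.2) + m := by omega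
      rw [h1]
      exact (hT' _).2 ⟨q', hq', c, rfl⟩
    · obtain ⟨n', ⟨_, hn'⟩, rfl⟩ := hq
      simp only [zero_mul, zero_add] at hc
      rw [hc]
      exact hn'

theorem exists_prim {p : ℕ} [Fact p.Prime] (y : Fin 2 → ℚ_[p]) (hy : ¬ (y 0 = 0 ∧ y 1 = 0)) :
    ∃ n : ℤ, (∀ j, ‖(p : ℚ_[p]) ^ n * y j‖ ≤ 1) ∧ ∃ j, ‖(p : ℚ_[p]) ^ n * y j‖ = 1 := by
  obtain ⟨j, hj⟩ := Finite.exists_max (fun j => ‖y j‖)
  have hj0 : y j ≠ 0 := by
    intro h0
    apply hy
    constructor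
    · have := hj 0
      rw [h0, norm_zero] at this
      exact norm_le_zero_iff.1 this
    · have := hj 1
      rw [h0, norm_zero] at this
      exact norm_le_zero_iff.1 this
  have hp : (0 : ℝ) < p := by exact_mod_cast (Fact.out : p.Prime).pos
  have h1 : ‖(p : ℚ_[p]) ^ (-(y j).valuation) * y j‖ = 1 := by
    rw [norm_mul, Padic.norm_p_zpow, Padic.norm_eq_zpow_neg_valuation hj0, neg_neg,
      ← zpow_add₀ hp.ne']
    simp
  refine ⟨-(y j).valuation, fun k => ?_, j, h1⟩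
  rw [← h1, norm_mul, norm_mul]
  exact mul_le_mul_of_nonneg_left (hj k) (norm_nonneg _)

open Pool.Agent.TH838.DS Pool.Agent.H905R3.DML in
theorem quality {p : ℕ} [Fact p.Prime] {N : ℕ} {d : Fin N → ℕ} (hd : ∀ i, 1 ≤ d i)
    (hdp : ∀ i, ((d i : ℕ) : ZMod p) ≠ 0) (L : Subfield ℂ) (τ : ℂ →+* PadicAlgCl p)
    (hτ : ∀ x ∈ L, ∃ y : ℚ_[p], τ x = algebraMap ℚ_[p] (PadicAlgCl p) y) (v : Idx N d → ℤ)
    (hv : ∀ i, NoCrit fun e : Fin 2 × Fin (d i + 1) => ((v ⟨i, e⟩ : ℤ) : ZMod p))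
    (σ : Fin N → Fin N) (hσ : Function.Surjective σ) : DMLOver L σ v := by
  intro α hα hα0
  choose y0 hy0 using fun q => hτ (α q) (hα q)
  have hy1 : ∀ i, ¬ (y0 (i, 0) = 0 ∧ y0 (i, 1) = 0) := by
    rintro i ⟨h0, h1⟩
    apply hα0 i
    constructor
    · have h := hy0 (i, 0)
      rw [h0, map_zero] at h
      exact (map_eq_zero τ).1 h
    · have h := hy0 (i, 1)
      rw [h1, map_zero] at h
      exact (map_eq_zero τ).1 h
  choose n hn1 hn2 using fun i => exists_prim (fun j => y0 (i, j)) (hy1 i)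
  have hp0 : (p : ℂ) ≠ 0 := by exact_mod_cast (Fact.out : p.Prime).ne_zero
  apply dml_scale σ v (fun i => (p : ℂ) ^ (n i)) (fun i => zpow_ne_zero _ hp0)
  let z : Fin N × Fin 2 → ℤ_[p] := fun q => ⟨(p : ℚ_[p]) ^ (n q.1) * y0 q, hn1 q.1 q.2⟩
  have hz : ∀ q, ((z q : ℤ_[p]) : ℚ_[p]) = (p : ℚ_[p]) ^ (n q.1) * y0 q := fun q => rfl
  have h1 := dml_prim (p := p) σ hσ v hv hd hdp (fun q => (p : ℂ) ^ (n q.1) * α q) τ z (by
      intro q
      rw [hz]
      simp only [map_mul, map_zpow₀, map_natCast, hy0 q]) (by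
      intro i h
      obtain ⟨j, hj⟩ := hn2 i
      have h2 : PadicInt.toZMod (z (i, j)) = 0 := congrFun h j
      have h3 : z (i, j) ∈ RingHom.ker (PadicInt.toZMod : ℤ_[p] →+* ZMod p) := h2
      rw [PadicInt.ker_toZMod, IsLocalRing.mem_maximalIdeal, mem_nonunits_iff,
        PadicInt.isUnit_iff] at h3
      exact h3 hj)
  intro S _
  obtain ⟨T, hT⟩ := h1 S
  refine ⟨T, ?_⟩
  rw [cmap_ps] at hT
  exact hT

theorem prod_card {p : ℕ} [Fact p.Prime] {N : ℕ} {d : Fin N → ℕ}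
    (E : ∀ i : Fin N, Set (Fin 2 × Fin (d i + 1) → ZMod p)) (δ : Fin N → ℝ) (hδ0 : ∀ i, 0 ≤ δ i)
    (hδ : ∀ i, δ i * (p : ℝ) ^ Fintype.card (Fin 2 × Fin (d i + 1)) ≤ (Nat.card (E i) : ℝ)) :
    (∏ i, δ i) * (p : ℝ) ^ Fintype.card (Idx N d) ≤
      (Nat.card {v : Idx N d → ZMod p // ∀ i, (fun e => v ⟨i, e⟩) ∈ E i} : ℝ) := by
  have e : {v : Idx N d → ZMod p // ∀ i, (fun e => v ⟨i, e⟩) ∈ E i} ≃ (∀ i : Fin N, E i) :=
    { toFun := fun v i => ⟨fun e => v.1 ⟨i, e⟩, v.2 i⟩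
      invFun := fun w => ⟨fun q => (w q.1).1 q.2, fun i => (w i).2⟩
      left_inv := fun v => by
        apply Subtype.ext
        funext q
        rfl
      right_inv := fun w => by
        funext i
        rfl }
  rw [Nat.card_congr e, Nat.card_pi]
  have hc : Fintype.card (Idx N d) = ∑ i, Fintype.card (Fin 2 × Fin (d i + 1)) :=
    Fintype.card_sigma
  rw [hc, ← Finset.prod_pow_eq_pow_sum, ← Finset.prod_mul_distrib, Nat.cast_prod]
  refine Finset.prod_le_prod ?_ ?_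
  · intro i _
    exact mul_nonneg (hδ0 i) (by positivity)
  · intro i _
    exact hδ i

theorem rpow_half {θ : ℝ} (hθ : 0 < θ) (E : ℝ) : ∃ y₀ : ℕ, ∀ y : ℕ, y₀ ≤ y →
    (y : ℝ) ^ (θ / 2) ≤ (y : ℝ) ^ θ - E := by
  have h1 : Filter.Tendsto (fun y : ℕ => (y : ℝ) ^ (θ / 2)) Filter.atTop Filter.atTop :=
    (tendsto_rpow_atTop (by positivity)).comp tendsto_natCast_atTop_atTop
  obtain ⟨y₀, hy₀⟩ := Filter.eventually_atTop.1 (h1.eventually_ge_atTop (max 2 E))
  refine ⟨max y₀ 1, fun y hy => ?_⟩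
  have h2 := hy₀ y ((le_max_left _ _).trans hy)
  have h3 : (2 : ℝ) ≤ (y : ℝ) ^ (θ / 2) := (le_max_left _ _).trans h2
  have h4 : E ≤ (y : ℝ) ^ (θ / 2) := (le_max_right _ _).trans h2
  have hy1 : (0 : ℝ) < y := by
    have : 1 ≤ y := (le_max_right _ _).trans hy
    exact_mod_cast this
  have h5 : (y : ℝ) ^ θ = (y : ℝ) ^ (θ / 2) * (y : ℝ) ^ (θ / 2) := by
    rw [← Real.rpow_add hy1]
    congr 1
    ring
  rw [h5]
  nlinarith

open Pool.Agent.TH838.DS Pool.Agent.H905R3.DML Pool.Agent.H684R3.Smo Pool.Agent.H927R2.RD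
  Pool.Agent.H692R2.USS in
/-- **Dynamical Mordell-Lang for almost all endomorphisms of powers of the projective line.** Let
`N ≥ 0`, let `d 0, ..., d (N-1) ≥ 1` be any degrees and `L ⊂ ℂ` a finitely generated field. There is
`δ > 0` such that for all large `H` and all integral vectors `b`, for all but a proportion `H ^ (-δ)`
of the integral vectors `v` in the cube `|v_j - b_j| ≤ H`, all the self-maps
`(P_i) ↦ (f_i (P_(σ i)))` of `(ℙ^1)^N` (`f_i` the rational function of degree `d i` with coefficients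
`v`, `σ` any self-map of the index set) have the Dynamical Mordell-Lang property for all points of
`(ℙ^1)^N` over `L` and all closed `V ⊆ (ℙ^1)^N` over `ℂ`. -/
theorem result (N : ℕ) (d : Fin N → ℕ) (hd : ∀ i, 1 ≤ d i) (s : Finset ℂ) :
    ∃ δ : ℝ, 0 < δ ∧ ∃ H₀ : ℕ, ∀ H : ℕ, H₀ ≤ H → ∀ b : Idx N d → ℤ,
      (Nat.card {v : Idx N d → ℤ // (∀ i, |v i - b i| ≤ (H : ℤ)) ∧
        ¬ ∀ σ : Fin N → Fin N, DMLOver (Subfield.closure (s : Set ℂ)) σ v} : ℝ) ≤
          (H : ℝ) ^ (-δ) * (2 * H + 1 : ℝ) ^ Fintype.card (Idx N d) := by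
  classical
  set κ : ℝ := ∏ i : Fin N, (1 / (16 * (d i : ℝ))) with hκdef
  have hdr : ∀ i, (1 : ℝ) ≤ d i := fun i => by exact_mod_cast hd i
  have hκ0 : 0 < κ := Finset.prod_pos fun i _ => by
    have := hdr i
    positivity
  set B : ℕ := ∑ i, 8 * d i with hB
  obtain ⟨K, i1, i2, S, hloc⟩ := exists_local s
  obtain ⟨θ, hθ, y₁, hy₁⟩ := t8 K
  obtain ⟨y₂, hy₂⟩ := rpow_half hθ ((S.card : ℝ) + (B + 1))
  let P : ℕ → Prop := fun p => p.Prime ∧ HasDegOne K p ∧ p ∉ S ∧ B < p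
  let G : ∀ p : ℕ, Set (Idx N d → ZMod p) := fun p =>
    {w | ∃ _ : Fact p.Prime, ∀ i, NoCrit fun e : Fin 2 × Fin (d i + 1) => w ⟨i, e⟩}
  have hbig : ∀ p, P p → ∀ i, 8 * d i ≤ p := by
    rintro p ⟨-, -, -, hp⟩ i
    have h1 : 8 * d i ≤ B := Finset.single_le_sum (f := fun i => 8 * d i)
      (fun _ _ => Nat.zero_le _) (Finset.mem_univ i)
    omega
  have hG : ∀ p, P p → p.Prime ∧
      κ * (p : ℝ) ^ Fintype.card (Idx N d) ≤ (Nat.card (G p) : ℝ) := by
    intro p hp
    haveI hpp : Fact p.Prime := ⟨hp.1⟩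
    refine ⟨hp.1, ?_⟩
    have h1 := prod_card (p := p) (N := N) (d := d) (fun i => {c | NoCrit c})
      (fun i => 1 / (16 * (d i : ℝ))) (fun i => by positivity)
      (fun i => count_noCrit (hd i) (hbig p hp i))
    refine h1.trans ?_
    apply le_of_eq
    congr 1
    apply Nat.card_congr
    apply Equiv.subtypeEquivRight
    intro w
    exact ⟨fun h => ⟨hpp, h⟩, fun ⟨_, h⟩ => h⟩
  have hQ : ∀ v : Idx N d → ℤ, ∀ p, P p → (fun i => (v i : ZMod p)) ∈ G p →
      ∀ σ : Fin N → Fin N, DMLOver (Subfield.closure (s : Set ℂ)) σ v := by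
    rintro v p hp ⟨hpp, hv⟩
    obtain ⟨h1, ⟨w, hw⟩, h3, h4⟩ := hp
    obtain ⟨τ, hτ⟩ := hloc p h3 ⟨h1, w.asIdeal, hw⟩
    refine dml_of_perm _ v (quality (p := p) hd (fun i h => ?_) _ τ hτ v hv)
    rw [ZMod.natCast_eq_zero_iff] at h
    have h1 := Nat.le_of_dvd (by have := hd i; omega) h
    have h2 := hbig p ⟨by assumption, ⟨w, hw⟩, h3, h4⟩ i
    have h3 := hd i
    omega
  have hcount : ∃ y₀ : ℕ, ∀ y : ℕ, y₀ ≤ y →
      (y : ℝ) ^ (θ / 2) ≤ (Nat.card {p : ℕ // P p ∧ p ≤ y} : ℝ) := by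
    refine ⟨max y₁ y₂, fun y hy => ?_⟩
    have h1 := hy₁ y ((le_max_left _ _).trans hy)
    have h2 := hy₂ y ((le_max_right _ _).trans hy)
    refine h2.trans ?_
    have h3 : Nat.card {p : ℕ // (p.Prime ∧ HasDegOne K p) ∧ p ≤ y} ≤
        Nat.card {p : ℕ // P p ∧ p ≤ y} + (S.card + (B + 1)) := by
      have e1 : Nat.card {p : ℕ // (p.Prime ∧ HasDegOne K p) ∧ p ≤ y} =
          ((Finset.range (y + 1)).filter fun p => p.Prime ∧ HasDegOne K p).card := by
        rw [← Nat.card_eq_finsetCard]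
        apply Nat.card_congr
        apply Equiv.subtypeEquivRight
        intro p
        simp only [Finset.mem_filter, Finset.mem_range]
        constructor
        · rintro ⟨h, h'⟩
          exact ⟨by omega, h⟩
        · rintro ⟨h, h'⟩
          exact ⟨h', by omega⟩
      have e2 : Nat.card {p : ℕ // P p ∧ p ≤ y} =
          ((Finset.range (y + 1)).filter fun p => P p).card := by
        rw [← Nat.card_eq_finsetCard]
        apply Nat.card_congr
        apply Equiv.subtypeEquivRight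
        intro p
        simp only [Finset.mem_filter, Finset.mem_range]
        constructor
        · rintro ⟨h, h'⟩
          exact ⟨by omega, h⟩
        · rintro ⟨h, h'⟩
          exact ⟨h', by omega⟩
      rw [e1, e2]
      have e3 : ((Finset.range (y + 1)).filter fun p => p.Prime ∧ HasDegOne K p) ⊆
          ((Finset.range (y + 1)).filter fun p => P p) ∪ (S ∪ Finset.range (B + 1)) := by
        intro p hp
        rw [Finset.mem_filter] at hp
        obtain ⟨g1, g2, g3⟩ := hp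
        rw [Finset.mem_union, Finset.mem_union]
        by_cases g4 : p ∈ S
        · exact Or.inr (Or.inl g4)
        · by_cases g5 : B < p
          · left
            rw [Finset.mem_filter]
            exact ⟨g1, g2, g3, g4, g5⟩
          · right; right
            rw [Finset.mem_range]
            omega
      refine (Finset.card_le_card e3).trans ((Finset.card_union_le _ _).trans ?_)
      have e4 := Finset.card_union_le S (Finset.range (B + 1))
      rw [Finset.card_range] at e4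
      omega
    have h4 : (Nat.card {p : ℕ // (p.Prime ∧ HasDegOne K p) ∧ p ≤ y} : ℝ) ≤
        (Nat.card {p : ℕ // P p ∧ p ≤ y} : ℝ) + ((S.card : ℝ) + ((B : ℝ) + 1)) := by
      exact_mod_cast h3
    linarith
  obtain ⟨δ, hδ, H₀, hH₀⟩ := (t5 (t4 (t3 t1 t2))) (Idx N d) P G κ (θ / 2) (4 / θ) hκ0
    (by positivity) (by positivity) (by
      have : 4 / θ * (θ / 2) = 2 := by field_simp; ring
      rw [this]
      norm_num) hG hcount
  refine ⟨δ, hδ, H₀, fun H hH b => ?_⟩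
  rw [mul_comm]
  refine le_trans ?_ (hH₀ H hH b)
  have hfin : Finite {v : Idx N d → ℤ // v ∈ bx b H ∧ ∀ p, P p →
      (p : ℝ) ≤ Real.log H ^ (4 / θ) → (fun i => (v i : ZMod p)) ∉ G p} :=
    Set.Finite.subset (Finset.finite_toSet (bx b H)) fun v hv => hv.1
  have hle : Nat.card {v : Idx N d → ℤ // (∀ i, |v i - b i| ≤ (H : ℤ)) ∧
        ¬ ∀ σ : Fin N → Fin N, DMLOver (Subfield.closure (s : Set ℂ)) σ v} ≤
      Nat.card {v : Idx N d → ℤ // v ∈ bx b H ∧ ∀ p, P p →
        (p : ℝ) ≤ Real.log H ^ (4 / θ) → (fun i => (v i : ZMod p)) ∉ G p} := by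
    apply Nat.card_le_card_of_injective (fun v => ⟨v.1, by
      simp only [bx, Fintype.mem_piFinset, Finset.mem_Icc]
      intro i
      have := abs_le.1 (v.2.1 i)
      constructor <;> linarith [this.1, this.2], fun p hp _ h => v.2.2 (hQ v.1 p hp h)⟩)
    intro v w hvw
    apply Subtype.ext
    exact congrArg (fun z => z.1) hvw
  exact_mod_cast hle

end Pool.Agent.Results.MP_295d38_ag.EndomorphismsOfLinePowers
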