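import Pool.Agent.TH838.DS.Hom
import Pool.Agent.TH838.DS.QSieve

/-!
# Dynamical Mordell-Lang at all complex points for almost all tuples of quadratic rational functions
-/

set_option autoImplicit false

namespace Pool.Agent.Results.MP_295d38_ag.QuadraticLinePowers

open MvPolynomial

/-- The self-map `(P_i) ↦ (f_(τ i) (P_(σ i)))` of `(ℙ^1)^N` in homogeneous coordinates, `f_j`
(`j < k`) being the quadratic rational function
`(x : y) ↦ (∑ v_{j,0,e} x^e y^(2-e) : ∑ v_{j,1,e} x^e y^(2-e))`. -/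
noncomputable def qmap {k N : ℕ} (τ : Fin N → Fin k) (σ : Fin N → Fin N)
    (v : Fin k × Fin 2 × Fin 3 → ℤ) (x : Fin N × Fin 2 → ℂ) : Fin N × Fin 2 → ℂ :=
  fun q => ∑ e : Fin 3,
    (v (τ q.1, q.2, e) : ℂ) * (x (σ q.1, 0) ^ (e : ℕ) * x (σ q.1, 1) ^ (2 - (e : ℕ)))

/-- A multihomogeneous polynomial. -/
def MultiHom {N : ℕ} (g : MvPolynomial (Fin N × Fin 2) ℂ) : Prop :=
  ∃ e : Fin N → ℕ, ∀ (t : Fin N → ℂ) (x : Fin N × Fin 2 → ℂ),
    eval (fun q => t q.1 * x q) g = (∏ i, t i ^ e i) * eval x g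

/-- The Dynamical Mordell-Lang property of a self-map of `(ℙ^1)^N` given in homogeneous coordinates:
for every point and every closed `V ⊆ (ℙ^1)^N` (the common zeros of a set `S` of multihomogeneous
polynomials) the return set is a finite union of arithmetic progressions. -/
def DML {N : ℕ} (F : (Fin N × Fin 2 → ℂ) → (Fin N × Fin 2 → ℂ)) : Prop :=
  ∀ α : Fin N × Fin 2 → ℂ, (∀ i, ¬ (α (i, 0) = 0 ∧ α (i, 1) = 0)) →
    ∀ S : Set (MvPolynomial (Fin N × Fin 2) ℂ), (∀ g ∈ S, MultiHom g) →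
      ∃ T : Finset (ℕ × ℕ), {k : ℕ | ∀ g ∈ S, eval (F^[k] α) g = 0} =
        {k : ℕ | ∃ q ∈ T, ∃ m : ℕ, k = q.1 * m + q.2}

/-- `F` maps points to points: no pair of homogeneous coordinates becomes `(0, 0)`. -/
def Regular {N : ℕ} (F : (Fin N × Fin 2 → ℂ) → (Fin N × Fin 2 → ℂ)) : Prop :=
  ∀ α : Fin N × Fin 2 → ℂ, (∀ i, ¬ (α (i, 0) = 0 ∧ α (i, 1) = 0)) →
    ∀ i, ¬ (F α (i, 0) = 0 ∧ F α (i, 1) = 0)

open Pool.Agent.TH838.DS

/-- the resultant of a pair of binary quadratic forms -/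
def rs {R : Type} [CommRing R] (c : Fin 2 × Fin (2 + 1) → R) : R :=
  (c (0, 2) * c (1, 0) - c (1, 2) * c (0, 0)) ^ 2 -
    (c (0, 2) * c (1, 1) - c (1, 2) * c (0, 1)) * (c (0, 1) * c (1, 0) - c (1, 1) * c (0, 0))

theorem rs_co {R : Type} [CommRing R] (A : Fin 2 → Fin 2 → R) (x : Fin 2 → R) :
    rs (co A x) = (A 0 0 * A 1 1 - A 0 1 * A 1 0) ^ 2 * (x 0 - x 1) ^ 4 := by
  have v2 : (((2 : Fin (2 + 1)) : ℕ)) = 2 := rfl
  have v1 : (((1 : Fin (2 + 1)) : ℕ)) = 1 := rfl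
  have v0 : (((0 : Fin (2 + 1)) : ℕ)) = 0 := rfl
  simp only [rs, co, v2, v1, v0, if_true, if_false, one_ne_zero, OfNat.ofNat_ne_zero,
      OfNat.ofNat_ne_one]
  ring

theorem no_zero {c : Fin 2 × Fin (2 + 1) → ℂ} (hc : rs c ≠ 0) {a b : ℂ}
    (h0 : c (0, 0) * b ^ 2 + c (0, 1) * (a * b) + c (0, 2) * a ^ 2 = 0)
    (h1 : c (1, 0) * b ^ 2 + c (1, 1) * (a * b) + c (1, 2) * a ^ 2 = 0) : a = 0 ∧ b = 0 := by
  by_contra hz
  apply hc
  unfold rs
  have key1 : a * ((c (0, 2) * c (1, 0) - c (1, 2) * c (0, 0)) * a +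
      (c (0, 1) * c (1, 0) - c (1, 1) * c (0, 0)) * b) = 0 := by
    linear_combination c (1, 0) * h0 - c (0, 0) * h1
  have key2 : b * ((c (0, 2) * c (1, 1) - c (1, 2) * c (0, 1)) * a +
      (c (0, 2) * c (1, 0) - c (1, 2) * c (0, 0)) * b) = 0 := by
    linear_combination c (0, 2) * h1 - c (1, 2) * h0
  by_cases hz0 : a = 0
  · have hz1 : b ≠ 0 := fun h => hz ⟨hz0, h⟩
    rw [hz0] at h0 h1
    have e0 : c (0, 0) = 0 := by
      apply (mul_eq_zero.1 (?_ : c (0, 0) * b ^ 2 = 0)).resolve_right (pow_ne_zero 2 hz1)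
      linear_combination h0
    have e1 : c (1, 0) = 0 := by
      apply (mul_eq_zero.1 (?_ : c (1, 0) * b ^ 2 = 0)).resolve_right (pow_ne_zero 2 hz1)
      linear_combination h1
    rw [e0, e1]
    ring
  · by_cases hz1 : b = 0
    · rw [hz1] at h0 h1
      have e0 : c (0, 2) = 0 := by
        apply (mul_eq_zero.1 (?_ : c (0, 2) * a ^ 2 = 0)).resolve_right (pow_ne_zero 2 hz0)
        linear_combination h0
      have e1 : c (1, 2) = 0 := by
        apply (mul_eq_zero.1 (?_ : c (1, 2) * a ^ 2 = 0)).resolve_right (pow_ne_zero 2 hz0)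
        linear_combination h1
      rw [e0, e1]
      ring
    · have k1 := (mul_eq_zero.1 key1).resolve_left hz0
      have k2 := (mul_eq_zero.1 key2).resolve_left hz1
      apply (mul_eq_zero.1 (?_ : _ * b = 0)).resolve_right hz1
      linear_combination (c (0, 2) * c (1, 0) - c (1, 2) * c (0, 0)) * k2 -
        (c (0, 2) * c (1, 1) - c (1, 2) * c (0, 1)) * k1

/-- reindexing -/
def re {k N : ℕ} (τ : Fin N → Fin k) (v : Fin k × Fin 2 × Fin (2 + 1) → ℤ) :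
    Hm.Idx N (fun _ => 2) → ℤ :=
  fun q => v (τ q.1, q.2)

theorem smap_re {k N : ℕ} (τ : Fin N → Fin k) (σ : Fin N → Fin N)
    (v : Fin k × Fin 2 × Fin (2 + 1) → ℤ) : Hm.smap σ (re τ v) = qmap τ σ v := by
  funext x q
  unfold Hm.smap qmap re
  rfl

theorem main {k N : ℕ} (v : Fin k × Fin 2 × Fin (2 + 1) → ℤ)
    (hv : ∃ (p : ℕ) (_ : Fact p.Prime), p ≠ 2 ∧
      GoodT fun (i : Fin k) (q : Fin 2 × Fin (2 + 1)) => ((v (i, q) : ℤ) : ZMod p))
    (τ : Fin N → Fin k) (σ : Fin N → Fin N) : Regular (qmap τ σ v) ∧ DML (qmap τ σ v) := by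
  classical
  obtain ⟨p, hp, hp2, A, x, hc, hA, hx, hU⟩ := hv
  constructor
  · have hrs : ∀ i, rs (fun q => (v (i, q) : ℂ)) ≠ 0 := by
      intro i
      have h1 : rs (fun q => ((v (i, q) : ℤ) : ZMod p)) ≠ 0 := by
        have h2 : (fun q => ((v (i, q) : ℤ) : ZMod p)) = co (A i) (x i) := hc i
        rw [h2, rs_co]
        exact mul_ne_zero (pow_ne_zero _ (hA i)) (pow_ne_zero _ (sub_ne_zero.2 (hx i)))
      have h3 : ((rs (fun q => v (i, q)) : ℤ) : ZMod p) =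
          rs fun q => ((v (i, q) : ℤ) : ZMod p) := by
        simp [rs]
      have h4 : ((rs (fun q => v (i, q)) : ℤ) : ℂ) = rs fun q => (v (i, q) : ℂ) := by
        simp [rs]
      rw [← h4]
      intro h5
      apply h1
      rw [← h3]
      have h6 : rs (fun q => v (i, q)) = 0 := by exact_mod_cast h5
      rw [h6, Int.cast_zero]
    intro α hα i hi
    apply hα (σ i)
    have e : ∀ j : Fin 2, qmap τ σ v α (i, j) = (v (τ i, j, 0) : ℂ) * α (σ i, 1) ^ 2 +
        (v (τ i, j, 1) : ℂ) * (α (σ i, 0) * α (σ i, 1)) +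
          (v (τ i, j, 2) : ℂ) * α (σ i, 0) ^ 2 := by
      intro j
      unfold qmap
      rw [Fin.sum_univ_three]
      simp only [Fin.val_zero, Fin.val_one, Fin.val_two, pow_zero, pow_one, one_mul, mul_one,
        Nat.sub_zero, Nat.sub_self, Nat.add_one_sub_one]
    have h0 := hi.1
    have h1 := hi.2
    rw [e] at h0 h1
    exact no_zero (hrs (τ i)) h0 h1
  · intro α hα S hS
    have hgood : GoodT fun (i : Fin N) (e : Fin 2 × Fin (2 + 1)) =>
        ((re τ v ⟨i, e⟩ : ℤ) : ZMod p) :=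
      ⟨fun i => A (τ i), fun i => x (τ i), fun i => hc (τ i), fun i => hA (τ i),
        fun i => hx (τ i), fun i j m => hU (τ i) (τ j) m⟩
    have h1 := Hm.good_all hp2 (re τ v) hgood σ α (fun _ => Subfield.mem_top _) hα S hS
    rw [smap_re] at h1
    exact h1

/-- **Dynamical Mordell-Lang at all complex points for almost all tuples of quadratic rational
functions.** Let `k ≥ 1`. There is `δ > 0` such that for all large `H` and every cube
`|v_q - b_q| ≤ H`, for all but a proportion `H ^ (-δ)` of the integral vectors `v` in the cube the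
quadratic rational functions `f_1, ..., f_k` with coefficients `v` have the following property: for
all `N`, `τ` and `σ` the map `(P_i) ↦ (f_(τ i) (P_(σ i)))` is an endomorphism of `(ℙ^1)^N` with the
full Dynamical Mordell-Lang property (all complex points, all closed subvarieties over `ℂ`). -/
theorem result (k : ℕ) (hk : 1 ≤ k) :
    ∃ δ : ℝ, 0 < δ ∧ ∃ H₀ : ℕ, ∀ H : ℕ, H₀ ≤ H → ∀ b : Fin k × Fin 2 × Fin 3 → ℤ,
      (Nat.card {v : Fin k × Fin 2 × Fin 3 → ℤ // (∀ q, |v q - b q| ≤ (H : ℤ)) ∧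
        ¬ ∀ (N : ℕ) (τ : Fin N → Fin k) (σ : Fin N → Fin N),
          Regular (qmap τ σ v) ∧ DML (qmap τ σ v)} : ℝ) ≤
        (H : ℝ) ^ (-δ) * (2 * H + 1 : ℝ) ^ (6 * k) := by
  classical
  haveI : Nonempty (Fin k) := ⟨⟨0, hk⟩⟩
  obtain ⟨δ, hδ, H₀, hH⟩ := sieve_good (ι := Fin k) (J := Fin k × Fin 2 × Fin (2 + 1))
    (Equiv.refl _)
  refine ⟨δ, hδ, H₀, fun H hH₀ b => ?_⟩
  have h1 := hH H hH₀ b
  have h2 : Fintype.card (Fin k × Fin 2 × Fin (2 + 1)) = 6 * k := by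
    simp only [Fintype.card_prod, Fintype.card_fin]
    ring
  rw [h2] at h1
  refine le_trans ?_ h1
  have hfin : Finite {v : Fin k × Fin 2 × Fin (2 + 1) → ℤ // (∀ i, |v i - b i| ≤ (H : ℤ)) ∧
      ¬ ∃ (p : ℕ) (_ : Fact p.Prime), p ≠ 2 ∧
        GoodT fun (i : Fin k) (q : Fin 2 × Fin (2 + 1)) =>
          ((v ((Equiv.refl _).symm (i, q)) : ℤ) : ZMod p)} := by
    apply Set.Finite.subset (Set.Finite.pi' fun i => Set.finite_Icc (b i - (H : ℤ)) (b i + H))
    rintro v ⟨hv, -⟩ i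
    have := abs_le.1 (hv i)
    exact ⟨by linarith [this.1], by linarith [this.2]⟩
  have hle := Nat.card_le_card_of_injective
    (fun v : {v : Fin k × Fin 2 × Fin 3 → ℤ // (∀ q, |v q - b q| ≤ (H : ℤ)) ∧
        ¬ ∀ (N : ℕ) (τ : Fin N → Fin k) (σ : Fin N → Fin N),
          Regular (qmap τ σ v) ∧ DML (qmap τ σ v)} =>
      (⟨v.1, v.2.1, fun h => v.2.2 fun _ τ σ => main v.1 h τ σ⟩ :
        {v : Fin k × Fin 2 × Fin (2 + 1) → ℤ // (∀ i, |v i - b i| ≤ (H : ℤ)) ∧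
      ¬ ∃ (p : ℕ) (_ : Fact p.Prime), p ≠ 2 ∧
        GoodT fun (i : Fin k) (q : Fin 2 × Fin (2 + 1)) =>
          ((v ((Equiv.refl _).symm (i, q)) : ℤ) : ZMod p)}))
    (fun v w hvw => Subtype.ext (congrArg (fun z => z.1) hvw))
  exact_mod_cast hle

end Pool.Agent.Results.MP_295d38_ag.QuadraticLinePowers
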