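import Pool.Agent.TH166.DMR.Pts

/-!
# Dynamical Mordell-Lang for perturbed power maps along real dominated orbits
-/

set_option autoImplicit false

open MvPolynomial Filter Topology

namespace Pool.Agent.Results.MP_295d38_ag.RealDominatedOrbits

/-- **Dynamical Mordell-Lang for `F = (a_1 x_1^d + P_1, ..., a_N x_N^d + P_N)` along orbits of real
points which are dominated by the pure powers.**
Let `N` be arbitrary, `d ≥ 2`, and let `L` be a field with embeddings `σ : L → ℂ` and `τ : L → ℝ`
(for instance `L = ℝ` with the inclusion and the identity, or a number field with a real place).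
Let `P_1, ..., P_N` be arbitrary polynomials over `L`, the `a_i ∈ L` nonzero, and `x(0), x(1), ...`
an orbit of `F` in `L^N` with nonzero coordinates for large `n` such that for every monomial `x^β`
occurring in `P_i` the real absolute value of `x(n)^β / x_i(n)^d` tends to `0`. Then for every
Zariski closed set `V` of `ℂ^N` (the zero locus of a set of complex polynomials) the set of `n` with
`F^n(x(0)) ∈ V` is a finite union of arithmetic progressions `{a + b k : k ≥ 0}`, with `b = 0` or
`b = 2`. -/
theorem result :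
    ∀ (N d : ℕ), 2 ≤ d →
    ∀ (L : Type) [Field L] (σ : L →+* ℂ) (τ : L →+* ℝ) (a : Fin N → L)
      (P : Fin N → MvPolynomial (Fin N) L) (x : ℕ → Fin N → L),
      (∀ i, a i ≠ 0) →
      (∀ n i, x (n + 1) i = a i * x n i ^ d + eval (x n) (P i)) →
      (∀ᶠ n in atTop, ∀ i, x n i ≠ 0) →
      (∀ i, ∀ β ∈ (P i).support,
        Tendsto (fun n => |τ (∏ j, x n j ^ (β j))| / |τ (x n i)| ^ d) atTop (𝓝 0)) →
      ∀ V : Set (MvPolynomial (Fin N) ℂ), ∃ T : Finset (ℕ × ℕ), (∀ t ∈ T, t.2 = 0 ∨ t.2 = 2) ∧
        {n : ℕ | ∀ g ∈ V,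
          eval ((fun z : Fin N → ℂ => fun i =>
            eval z (C (σ (a i)) * X i ^ d + map σ (P i)))^[n] (fun i => σ (x 0 i))) g = 0} =
        {n : ℕ | ∃ t ∈ T, ∃ k : ℕ, n = t.1 + t.2 * k} := by
  intro N d hd L _ σ τ a P x ha hx hx0 hdom V
  have h := Pool.Agent.TH166.DMR.evper_tendsto hd τ a ha P x hx hx0 hdom
  have horb : ∀ n, (fun z : Fin N → ℂ => fun i =>
      eval z (C (σ (a i)) * X i ^ d + map σ (P i)))^[n] (fun i => σ (x 0 i)) =
      fun i => σ (x n i) := by
    intro n
    induction n with
    | zero => rfl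
    | succ n ih =>
      rw [Function.iterate_succ_apply', ih]
      funext i
      rw [hx n i, map_add, map_mul, eval_C, map_pow, eval_X, Pool.Agent.TH166.DMR.eval_homR,
        map_add, map_mul, map_pow]
  obtain ⟨T, hT0, hT⟩ := Pool.Agent.TH166.DMR.all_families σ one_le_two h V
  refine ⟨T, hT0, ?_⟩
  rw [← hT]
  ext n
  simp only [horb]

end Pool.Agent.Results.MP_295d38_ag.RealDominatedOrbits
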