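import Pool.Agent.TH710.DY.Skew

/-!
# Dynamical Mordell-Lang for skew products of linear images of power maps with polynomial maps

Definitions (in `Pool.Agent.TH710.DY` unless otherwise stated):
* `FF.IsFF`, `canDeg`: function fields `K` of one variable over `k`, the canonical degree `2 g - 2`;
  `hgt k f`: the number of poles of `f`, with multiplicity;
* `mons N δ`: the exponents of the monomials of degree `δ` in `N` variables; `mv x κ`: the value at
  `x` of the monomial with exponents `κ`;
* `FarM k δ W x`: all coordinates of `x` are nonzero and the ratios of the values at `x` of two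
  different monomials of degree `δ` have height `> W`;
* `csum k p`: the sum of the heights of the coefficients of `p`;
* `borb g y m`: the point `g^m (y)` of the base; `evm A y`: the matrix `A(y)`;
* `skew σ d A g`: the map `(x, y) ↦ (A(y) (x_0 ^ d, ..., x_n ^ d), g(y))` over `ℂ`;
* `Ret σ d A g x y V`: the set of the `m` such that the `m`-th iterate of `(x, y)` is in the closed
  subset `V` of `P^n × A^r`; `BRet σ g y W`: the same for the base; `coefs V`: the coefficients of
  the polynomials in `V`, which define `{y : P^n × {y} ⊆ V}`;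
* `IsAP`: finite union of arithmetic progressions `{a + b j : j ≥ 0}`, `b = 0` allowed.
-/

set_option autoImplicit false

open FF MvPolynomial Pool.Agent.W603.LV Pool.Agent.TH710.DY

namespace Pool.Agent.Results.MP_295d38_ag.SkewPowerMaps

/-- **Dynamical Mordell-Lang for skew products.** Let `K ⊂ ℂ` (by `σ`) be a function field of one
variable over an algebraically closed field `k`, `δ, e ≥ 1`, `s` the number of the monomials of
degree `δ` in `n + 1` variables, `d ≥ (e + 1) s (δ + 1) (2 s (s - 1) + 1)`, and let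
`Φ(x, y) = (A(y) (x_0 ^ d, ..., x_n ^ d), g(y))` with a matrix `A` of polynomials over `K` and a
polynomial self-map `g` over `K` of the affine `r`-space. Let `y ∈ K ^ r` be a point such that
`A` is invertible along its orbit. If `e ≥ 2` and `g` has degree at most `e` (first part), or if the
orbit of `y` lies in `k ^ r` (second part), then for all `x` whose monomials of degree `δ` are far
from each other and all closed `V ⊆ P^n × A^r` given by equations of degree at most `δ` in `x`
the return set of `(x, y)` in `V` agrees up to finitely many elements with the return set of `y` in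
`{y : P^n × {y} ⊆ V}`; so the dynamical Mordell-Lang property passes from the base to `Φ`. It holds
for the base if `r ≤ 1` (third part). -/
theorem result (n r d δ e : ℕ) (hδ : 1 ≤ δ) (he : 1 ≤ e)
    (hd : (e + 1) * ((2 * (mons (n + 1) δ).card * ((mons (n + 1) δ).card - 1) + 1) *
      ((mons (n + 1) δ).card * (δ + 1))) ≤ d)
    (k K : Type) [Field k] [IsAlgClosed k] [CharZero k] [Field K] [Algebra k K] [IsFF k K]
    (σ : K →+* ℂ) (A : Matrix (Fin (n + 1)) (Fin (n + 1)) (MvPolynomial (Fin r) K))
    (g : Fin r → MvPolynomial (Fin r) K) (y : Fin r → K)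
    (hA : ∀ m, (evm A (borb g y m)).det ≠ 0) :
    (2 ≤ e → (∀ i, (g i).totalDegree ≤ e) → ∃ W : ℤ, ∀ x : Fin (n + 1) → K, FarM k δ W x →
      ∀ V : Set (MvPolynomial (Fin (n + 1)) (MvPolynomial (Fin r) ℂ)),
        (∀ F ∈ V, ∃ δ' ≤ δ, F.IsHomogeneous δ') →
        (∃ m0 : ℕ, ∀ m, m0 ≤ m → (m ∈ Ret σ d A g x y V ↔ m ∈ BRet σ g y (coefs V))) ∧
        (IsAP (BRet σ g y (coefs V)) → IsAP (Ret σ d A g x y V))) ∧
    ((∀ m i, ∃ c : k, borb g y m i = algebraMap k K c) →
      ∀ x : Fin (n + 1) → K,
      FarM k δ (max (canDeg k K) 0 + ∑ i, ∑ j, csum k (A i j)) x →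
      ∀ V : Set (MvPolynomial (Fin (n + 1)) (MvPolynomial (Fin r) ℂ)),
        (∀ F ∈ V, ∃ δ' ≤ δ, F.IsHomogeneous δ') →
        (∃ m0 : ℕ, ∀ m, m0 ≤ m → (m ∈ Ret σ d A g x y V ↔ m ∈ BRet σ g y (coefs V))) ∧
        (IsAP (BRet σ g y (coefs V)) → IsAP (Ret σ d A g x y V))) ∧
    (r ≤ 1 → ∀ W : Set (MvPolynomial (Fin r) ℂ), IsAP (BRet σ g y W)) := by
  have hc0 : 0 ≤ ∑ i, ∑ j, csum k (A i j) :=
    Finset.sum_nonneg fun _ _ => Finset.sum_nonneg fun _ _ => csum_nonneg _
  obtain ⟨eA, heA⟩ : ∃ eA : ℕ, ∀ i j, (A i j).totalDegree ≤ eA :=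
    ⟨∑ i, ∑ j, (A i j).totalDegree, fun i j =>
      (Finset.single_le_sum (f := fun j => (A i j).totalDegree) (fun _ _ => Nat.zero_le _)
        (Finset.mem_univ j)).trans (Finset.single_le_sum
        (f := fun i => ∑ j, (A i j).totalDegree) (fun _ _ => Nat.zero_le _) (Finset.mem_univ i))⟩
  refine ⟨fun he2 hg => ?_, fun hk x hx V hV => ?_, fun hr W => ?_⟩
  · set b : ℤ := mapDeg k y + ∑ i, csum k (g i) with hb
    have hb0 : 0 ≤ b := add_nonneg (mapDeg_nonneg y) (Finset.sum_nonneg fun _ _ => csum_nonneg _)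
    have hbm : ∀ m, mapDeg k (borb g y m) ≤ b * e ^ m := fun m => growth he2 hg y m
    set a : ℤ := ((n + 1) ^ 2 * eA : ℕ) * b + ∑ i, ∑ j, csum k (A i j) with ha
    have ha0 : 0 ≤ a := add_nonneg (mul_nonneg (by positivity) hb0) hc0
    refine ⟨max (canDeg k K) 0 + a, fun x hx V hV => ?_⟩
    refine skew_main (k := k) hδ he hd σ A g y hA ha0 (fun m => ?_) hb0 hbm x hx V hV
    refine (msum_evm A heA (borb g y m)).trans ?_
    have h1 : (1 : ℤ) ≤ (e : ℤ) ^ m := one_le_pow₀ (by exact_mod_cast he)
    have h2 := mul_le_mul_of_nonneg_left (hbm m)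
      (by positivity : (0 : ℤ) ≤ (((n + 1) ^ 2 * eA : ℕ) : ℤ))
    have h3 : a * (e : ℤ) ^ m = ((n + 1) ^ 2 * eA : ℕ) * (b * e ^ m) +
        (∑ i, ∑ j, csum k (A i j)) * e ^ m := by
      rw [ha]
      ring
    rw [h3]
    nlinarith
  · have h0 : ∀ m, mapDeg k (borb g y m) = 0 := fun m => mapDeg_const _ (hk m)
    refine skew_main (k := k) hδ he hd σ A g y hA hc0 (fun m => ?_) le_rfl
      (fun m => by rw [h0 m, zero_mul]) x hx V hV
    refine (msum_evm A heA (borb g y m)).trans ?_
    rw [h0 m, mul_zero, zero_add]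
    have h1 : (1 : ℤ) ≤ (e : ℤ) ^ m := one_le_pow₀ (by exact_mod_cast he)
    nlinarith
  · exact base_one hr (bmap σ g) (fun i => σ (y i)) W

end Pool.Agent.Results.MP_295d38_ag.SkewPowerMaps
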